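import Mathlib
import Pool.Agent.Helper74.Iso3.Defs3
import Pool.Agent.Helper74.Iso3.LinAlg

/-!
# Stokes' formula in a box chart (module IS-M5)
-/

set_option linter.unusedSectionVars false

namespace Pool.Agent.Helper74.Iso3

open Module InnerProductSpace MeasureTheory Set Filter Topology
open Pool.Agent.Helper74.Iso Pool.Agent.Helper74.Iso2
open scoped ContDiff ENNReal

variable {E : Type*} [NormedAddCommGroup E] [InnerProductSpace ℝ E] [FiniteDimensional ℝ E]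

section

variable {P : ℝ × ℝ → E} {Ω : Set (ℝ × ℝ)}

lemma Stokes.contDiffOn_d1 (hΩ : IsOpen Ω) (hP : ContDiffOn ℝ ∞ P Ω) :
    ContDiffOn ℝ ∞ (d1 P) Ω :=
  (hP.fderiv_of_isOpen hΩ (m := ∞) (by norm_num)).clm_apply contDiffOn_const

lemma Stokes.contDiffOn_d2 (hΩ : IsOpen Ω) (hP : ContDiffOn ℝ ∞ P Ω) :
    ContDiffOn ℝ ∞ (d2 P) Ω :=
  (hP.fderiv_of_isOpen hΩ (m := ∞) (by norm_num)).clm_apply contDiffOn_const

/-- symmetry of the second derivative -/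
lemma Stokes.symm (hΩ : IsOpen Ω) (hP : ContDiffOn ℝ ∞ P Ω) {k : ℝ × ℝ} (hk : k ∈ Ω) :
    fderiv ℝ (d2 P) k (1, 0) = fderiv ℝ (d1 P) k (0, 1) := by
  have hPk : ContDiffAt ℝ ∞ P k := hP.contDiffAt (hΩ.mem_nhds hk)
  have h1 : DifferentiableAt ℝ (fderiv ℝ P) k :=
    (hPk.fderiv_right (m := ∞) (by norm_num)).differentiableAt (by norm_num)
  have h2 : fderiv ℝ (d2 P) k (1, 0) = fderiv ℝ (fderiv ℝ P) k (1, 0) (0, 1) := by
    have : HasFDerivAt (d2 P) ((fderiv ℝ (fderiv ℝ P) k).flip (0, 1)) k := by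
      have := h1.hasFDerivAt.clm_apply (hasFDerivAt_const ((0 : ℝ), (1 : ℝ)) k)
      simpa [d2] using! this
    rw [this.fderiv]
    rfl
  have h3 : fderiv ℝ (d1 P) k (0, 1) = fderiv ℝ (fderiv ℝ P) k (0, 1) (1, 0) := by
    have : HasFDerivAt (d1 P) ((fderiv ℝ (fderiv ℝ P) k).flip (1, 0)) k := by
      have := h1.hasFDerivAt.clm_apply (hasFDerivAt_const ((1 : ℝ), (0 : ℝ)) k)
      simpa [d1] using! this
    rw [this.fderiv]
    rfl
  rw [h2, h3]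
  have hs : IsSymmSndFDerivAt ℝ P k := hPk.isSymmSndFDerivAt (by
    rw [minSmoothness_of_isRCLikeNormedField]
    exact WithTop.coe_le_coe.2 le_top)
  exact hs _ _

variable {X : E → E}

/-- the derivative of `⟪X ∘ P, Q⟫` -/
lemma Stokes.fderiv_inner (hΩ : IsOpen Ω) (hP : ContDiffOn ℝ ∞ P Ω) {Q : ℝ × ℝ → E}
    (hQ : ContDiffOn ℝ ∞ Q Ω) (hX : ContDiff ℝ 1 X) {k : ℝ × ℝ} (hk : k ∈ Ω) (w : ℝ × ℝ) :
    fderiv ℝ (fun k => ⟪X (P k), Q k⟫_ℝ) k w =
      ⟪fderiv ℝ X (P k) (fderiv ℝ P k w), Q k⟫_ℝ + ⟪X (P k), fderiv ℝ Q k w⟫_ℝ := by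
  have hPk : DifferentiableAt ℝ P k :=
    (hP.contDiffAt (hΩ.mem_nhds hk)).differentiableAt (by norm_num)
  have hQk : DifferentiableAt ℝ Q k :=
    (hQ.contDiffAt (hΩ.mem_nhds hk)).differentiableAt (by norm_num)
  have hXk : DifferentiableAt ℝ X (P k) := hX.differentiable (by norm_num) _
  have hXP : HasFDerivAt (fun k => X (P k)) ((fderiv ℝ X (P k)).comp (fderiv ℝ P k)) k :=
    hXk.hasFDerivAt.comp k hPk.hasFDerivAt
  rw [fderiv_inner_apply ℝ hXP.differentiableAt hQk, hXP.fderiv]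
  rw [add_comm]
  rfl

lemma Stokes.contDiffOn_inner (hP : ContDiffOn ℝ ∞ P Ω) {Q : ℝ × ℝ → E}
    (hQ : ContDiffOn ℝ ∞ Q Ω) (hX : ContDiff ℝ 1 X) :
    ContDiffOn ℝ 1 (fun k => ⟪X (P k), Q k⟫_ℝ) Ω :=
  (hX.comp_contDiffOn (hP.of_le (by exact_mod_cast le_top))).inner ℝ
    (hQ.of_le (by exact_mod_cast le_top))

end

/-- Stokes' formula in a box, from the area formula `hA` on the box. -/
theorem Box.stokes_of_area [MeasurableSpace E] [BorelSpace E] {M N : Set E} (hM : MeasurableSet M)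
    {P : ℝ × ℝ → E} {Ω : Set (ℝ × ℝ)} {a r : ℝ} (hb : Box M N P Ω a r) {J : E → E →L[ℝ] E}
    (hJ : IsOrientation M J)
    (hA : ∀ g : E → ℝ, ∫ x in P '' (Icc a r ×ˢ Icc (-r) r), g x ∂μHE[2] =
      ∫ k in Icc a r ×ˢ Icc (-r) r, jac (d1 P k) (d2 P k) * g (P k)) : ∃ σ : ℝ, (σ = 1 ∨ σ = -1) ∧
      (∀ k ∈ Icc a r ×ˢ Icc (-r) r,
        ⟪J (P k) (d1 P k), d2 P k⟫_ℝ = σ * jac (d1 P k) (d2 P k)) ∧
      ∀ X : E → E, ContDiff ℝ 1 X → tsupport X ⊆ N →
        ∫ x in M, tcurl (J x) (fderiv ℝ X x) ∂μHE[2] =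
          -σ * ∫ t in (-r)..r, ⟪X (P (a, t)), d2 P (a, t)⟫_ℝ := by
  set b : Set (ℝ × ℝ) := Icc a r ×ˢ Icc (-r) r with hbdef
  have hbI : b = Icc (a, -r) (r, r) := by
    rw [hbdef, Icc_prod_Icc]
  have hbc : IsCompact b := isCompact_Icc.prod isCompact_Icc
  have hbm : MeasurableSet b := hbc.isClosed.measurableSet
  have hd1 := Stokes.contDiffOn_d1 hb.isOpenΩ hb.smooth
  have hd2 := Stokes.contDiffOn_d2 hb.isOpenΩ hb.smooth
  have hd1c : ContinuousOn (d1 P) b := hd1.continuousOn.mono hb.sub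
  have hd2c : ContinuousOn (d2 P) b := hd2.continuousOn.mono hb.sub
  have hPc : ContinuousOn P b := hb.smooth.continuousOn.mono hb.sub
  have hli : ∀ k ∈ Ω, LinearIndependent ℝ ![d1 P k, d2 P k] := fun k hk =>
    linearIndependent_pair (hb.imm k hk)
  have hrot : ∀ k ∈ b, IsRotationOf (J (P k)) (Submodule.span ℝ {d1 P k, d2 P k}) := by
    intro k hk
    have h := hJ.2 (P k) (hb.mapsTo hk)
    rw [hb.tangent k hk, range_eq_span_pair] at h
    exact h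
  have hjac : ∀ k ∈ b, 0 < jac (d1 P k) (d2 P k) := fun k hk => jac_pos (hli k (hb.sub hk))
  -- the sign
  have hσ : ∃ σ : ℝ, (σ = 1 ∨ σ = -1) ∧ ∀ k ∈ b,
      ⟪J (P k) (d1 P k), d2 P k⟫_ℝ = σ * jac (d1 P k) (d2 P k) := by
    have hpre : IsPreconnected b :=
      ((convex_Icc a r).prod (convex_Icc (-r) r)).isPreconnected
    have hJP : ContinuousOn (fun k => J (P k)) b := hJ.1.comp hPc hb.mapsTo
    have hc1 : ContinuousOn (fun k => ⟪J (P k) (d1 P k), d2 P k⟫_ℝ) b :=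
      (hJP.clm_apply hd1c).inner hd2c
    have hc2 : ContinuousOn (fun k => jac (d1 P k) (d2 P k)) b :=
      continuous_jac.comp_continuousOn (hd1c.prodMk hd2c)
    have hc : ContinuousOn (fun k => ⟪J (P k) (d1 P k), d2 P k⟫_ℝ / jac (d1 P k) (d2 P k)) b :=
      hc1.div hc2 fun k hk => (hjac k hk).ne'
    have hsq : EqOn ((fun k => ⟪J (P k) (d1 P k), d2 P k⟫_ℝ / jac (d1 P k) (d2 P k)) ^ 2) 1 b := by
      intro k hk
      have h1 := inner_J_sq (hli k (hb.sub hk)) (hrot k hk)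
      simp only [Pi.pow_apply, Pi.one_apply, div_pow]
      rw [h1]
      exact div_self (pow_ne_zero 2 (hjac k hk).ne')
    rcases hpre.eq_one_or_eq_neg_one_of_sq_eq hc hsq with h | h
    · refine ⟨1, Or.inl rfl, fun k hk => ?_⟩
      have := h hk
      simp only [Pi.one_apply] at this
      rwa [div_eq_iff (hjac k hk).ne'] at this
    · refine ⟨-1, Or.inr rfl, fun k hk => ?_⟩
      have := h hk
      simp only [Pi.neg_apply, Pi.one_apply] at this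
      rwa [div_eq_iff (hjac k hk).ne'] at this
  obtain ⟨σ, hσ1, hσ2⟩ := hσ
  refine ⟨σ, hσ1, hσ2, ?_⟩
  intro X hX hXN
  have hσσ : σ * σ = 1 := by
    rcases hσ1 with h | h <;> rw [h] <;> norm_num
  have hX0 : ∀ x, x ∉ N → X x = 0 := fun x hx => image_eq_zero_of_notMem_tsupport
    fun h => hx (hXN h)
  -- reduction to the box
  have hsub : P '' b ⊆ M := by
    rintro _ ⟨k, hk, rfl⟩
    exact hb.mapsTo hk
  have e1 : ∫ x in M, tcurl (J x) (fderiv ℝ X x) ∂μHE[2] =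
      ∫ x in P '' b, tcurl (J x) (fderiv ℝ X x) ∂μHE[2] := by
    refine setIntegral_eq_of_subset_of_forall_sdiff_eq_zero hM hsub fun x hx => ?_
    have hxN : x ∉ N := fun h => hx.2 (hb.surj ⟨hx.1, h⟩)
    rw [fderiv_of_notMem_tsupport (𝕜 := ℝ) (x := x) fun h => hxN (hXN h)]
    simp [tcurl]
  rw [e1, hA]
  -- the two coefficients
  set f2 : ℝ × ℝ → ℝ := fun k => ⟪X (P k), d2 P k⟫_ℝ with hf2
  set f1 : ℝ × ℝ → ℝ := fun k => ⟪X (P k), d1 P k⟫_ℝ with hf1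
  have hf2c : ContDiffOn ℝ 1 f2 Ω := Stokes.contDiffOn_inner hb.smooth hd2 hX
  have hf1c : ContDiffOn ℝ 1 f1 Ω := Stokes.contDiffOn_inner hb.smooth hd1 hX
  have e2 : ∀ k ∈ b, jac (d1 P k) (d2 P k) * tcurl (J (P k)) (fderiv ℝ X (P k)) =
      σ * (fderiv ℝ f2 k (1, 0) + fderiv ℝ (fun k => -f1 k) k (0, 1)) := by
    intro k hk
    have hkΩ := hb.sub hk
    have h1 := tcurl_eq (hli k hkΩ) (hrot k hk) (fderiv ℝ X (P k))
    rw [hσ2 k hk] at h1
    have h2 : fderiv ℝ f2 k (1, 0) = _ := Stokes.fderiv_inner hb.isOpenΩ hb.smooth hd2 hX hkΩ (1, 0)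
    have h3 : fderiv ℝ f1 k (0, 1) = _ := Stokes.fderiv_inner hb.isOpenΩ hb.smooth hd1 hX hkΩ (0, 1)
    have h4 : fderiv ℝ (fun k => -f1 k) k (0, 1) = -fderiv ℝ f1 k (0, 1) := by
      rw [fderiv_fun_neg]
      rfl
    rw [h4, h2, h3, Stokes.symm hb.isOpenΩ hb.smooth hkΩ]
    have h5 : fderiv ℝ P k (1, 0) = d1 P k := rfl
    have h6 : fderiv ℝ P k (0, 1) = d2 P k := rfl
    rw [h5, h6]
    have h7 : jac (d1 P k) (d2 P k) * tcurl (J (P k)) (fderiv ℝ X (P k)) =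
        σ * (σ * jac (d1 P k) (d2 P k) * tcurl (J (P k)) (fderiv ℝ X (P k))) := by
      rw [← mul_assoc, ← mul_assoc, hσσ, one_mul]
    rw [h7, ← h1]
    ring
  rw [setIntegral_congr_fun hbm e2, integral_const_mul]
  -- the divergence theorem
  have hle : ((a, -r) : ℝ × ℝ) ≤ (r, r) := ⟨hb.lt.le, by
    have := hb.pos
    show -r ≤ r
    linarith⟩
  have hIoo : ∀ x ∈ Ioo ((a, -r) : ℝ × ℝ).1 ((r, r) : ℝ × ℝ).1 ×ˢ
      Ioo ((a, -r) : ℝ × ℝ).2 ((r, r) : ℝ × ℝ).2, x ∈ Ω := by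
    intro x hx
    exact hb.sub ⟨Ioo_subset_Icc_self hx.1, Ioo_subset_Icc_self hx.2⟩
  have hdf2 : ContinuousOn (fderiv ℝ f2) Ω := hf2c.continuousOn_fderiv_of_isOpen hb.isOpenΩ le_rfl
  have hdf1 : ContinuousOn (fderiv ℝ fun k => -f1 k) Ω :=
    hf1c.neg.continuousOn_fderiv_of_isOpen hb.isOpenΩ le_rfl
  have hdiv := integral_divergence_prod_Icc_of_hasFDerivAt_of_le f2 (fun k => -f1 k)
    (fderiv ℝ f2) (fderiv ℝ fun k => -f1 k) (a, -r) (r, r) hle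
    (hbI ▸ hf2c.continuousOn.mono hb.sub) (hbI ▸ hf1c.neg.continuousOn.mono hb.sub)
    (fun x hx => ((hf2c.contDiffAt (hb.isOpenΩ.mem_nhds (hIoo x hx))).differentiableAt
      (by norm_num)).hasFDerivAt)
    (fun x hx => ((hf1c.neg.contDiffAt (hb.isOpenΩ.mem_nhds (hIoo x hx))).differentiableAt
      (by norm_num)).hasFDerivAt)
    (by
      rw [← hbI]
      refine ContinuousOn.integrableOn_compact hbc ?_
      exact ((hdf2.mono hb.sub).clm_apply continuousOn_const).add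
        ((hdf1.mono hb.sub).clm_apply continuousOn_const))
  rw [hbI, hdiv]
  have z1 : ∫ x in a..r, (fun k => -f1 k) (x, r) = 0 := by
    refine intervalIntegral.integral_zero_ae (Filter.Eventually.of_forall fun s hs => ?_)
    rw [uIoc_of_le hb.lt.le] at hs
    simp only [hf1]
    rw [hX0 _ (hb.top s ⟨hs.1.le, hs.2⟩)]
    simp
  have z2 : ∫ x in a..r, (fun k => -f1 k) (x, -r) = 0 := by
    refine intervalIntegral.integral_zero_ae (Filter.Eventually.of_forall fun s hs => ?_)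
    rw [uIoc_of_le hb.lt.le] at hs
    simp only [hf1]
    rw [hX0 _ (hb.bot s ⟨hs.1.le, hs.2⟩)]
    simp
  have z3 : ∫ y in (-r)..r, f2 (r, y) = 0 := by
    refine intervalIntegral.integral_zero_ae (Filter.Eventually.of_forall fun s hs => ?_)
    rw [uIoc_of_le (by linarith [hb.pos])] at hs
    simp only [hf2]
    rw [hX0 _ (hb.right s ⟨hs.1.le, hs.2⟩)]
    simp
  simp only at z1 z2 z3 ⊢
  rw [z1, z2, z3]
  ring

end Pool.Agent.Helper74.Iso3
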